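import Pool.Agent.X286.Ti.Tile

namespace Pool.Agent.X286.Ti

theorem bonf {ι α : Type*} [DecidableEq α] [DecidableEq ι] (A : ι → Finset α) (N ε : ℕ)
    (s : Finset ι) (hA : ∀ i ∈ s, N ≤ (A i).card)
    (hε : ∀ i ∈ s, ∀ j ∈ s, i ≠ j → (A i ∩ A j).card ≤ ε) :
    s.card * N ≤ (s.biUnion A).card + s.card^2 * ε := by
  induction s using Finset.induction_on with
  | empty => simp
  | insert i s hi ih =>
    have ih' := ih (fun j hj => hA j (Finset.mem_insert_of_mem hj))
      (fun j hj k hk => hε j (Finset.mem_insert_of_mem hj) k (Finset.mem_insert_of_mem hk))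
    rw [Finset.card_insert_of_notMem hi, Finset.biUnion_insert]
    have h1 := Finset.card_union_add_card_inter (A i) (s.biUnion A)
    have h2 : (A i ∩ s.biUnion A).card ≤ s.card * ε := by
      rw [Finset.inter_biUnion]
      refine Finset.card_biUnion_le.trans ?_
      refine (Finset.sum_le_card_nsmul s _ ε ?_).trans (by rw [smul_eq_mul])
      intro j hj
      refine hε i (Finset.mem_insert_self _ _) j (Finset.mem_insert_of_mem hj) ?_
      rintro rfl
      exact hi hj
    have h3 := hA i (Finset.mem_insert_self _ _)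
    nlinarith

theorem goodCard {Y : Type*} [Fintype Y] [DecidableEq Y] (q q' : Y) (h : q ≠ q') :
    (Finset.univ.filter fun g : Y → Fin 3 => ¬ (g q = 1 ∧ g q' = 0)).card * 9 ≤
      8 * 3^(Fintype.card Y) := by
  have h1 := Finset.card_filter_add_card_filter_not (s := (Finset.univ : Finset (Y → Fin 3)))
    (fun g => g q = 1 ∧ g q' = 0)
  have h2 : Fintype.card (Y → Fin 3) ≤
      (Finset.univ.filter fun g : Y → Fin 3 => g q = 1 ∧ g q' = 0).card * 9 := by
    have h3 : (Finset.univ.filter fun g : Y → Fin 3 => g q = 1 ∧ g q' = 0).card * 9 =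
        Fintype.card ({g : Y → Fin 3 // g q = 1 ∧ g q' = 0} × (Fin 3 × Fin 3)) := by
      rw [Fintype.card_prod, Fintype.card_subtype]
      simp
    rw [h3]
    refine Fintype.card_le_of_injective (fun f => (⟨Function.update (Function.update f q 1) q' 0,
      by simp [Function.update_of_ne h], by simp⟩, (f q, f q'))) ?_
    intro f f' hf
    simp only [Prod.mk.injEq, Subtype.mk.injEq] at hf
    obtain ⟨e1, e2, e3⟩ := hf
    funext y
    by_cases hy : y = q
    · rw [hy, e2]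
    · by_cases hy' : y = q'
      · rw [hy', e3]
      · have := congrFun e1 y
        rwa [Function.update_of_ne hy', Function.update_of_ne hy, Function.update_of_ne hy',
          Function.update_of_ne hy] at this
  have h4 : Fintype.card (Y → Fin 3) = 3^(Fintype.card Y) := by simp
  rw [Finset.card_univ] at h1
  omega

variable {t n : ℕ} [NeZero t] [NeZero n]

/-- index of the family of lattices -/
abbrev Ix (n : ℕ) := Fin n × Fin (n-1) × Fin n

def par (i : Ix n) : Par := ⟨((i.1 : ℕ) : ℤ), ((i.2.1 : ℕ) : ℤ) + 1, ((i.2.2 : ℕ) : ℤ)⟩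

omit [NeZero n] in
theorem emod_inj {u v : ℤ} (h : u % n = v % n) (h2 : |u - v| < n) : u = v := by
  have h1 : v ≡ u [ZMOD n] := h.symm
  have : (n:ℤ) ∣ u - v := h1.dvd
  exact sub_eq_zero.1 (Int.eq_zero_of_abs_lt_dvd this h2)

theorem distinct (i i' : Ix n) (h : i ≠ i') : ∃ X1 X2 : ℤ, (0 ≤ X1 ∧ X1 < n) ∧
    (0 ≤ X2 ∧ X2 < n) ∧ ∃ q q' : Fin n × Fin n, q ≠ q' ∧
    (((q.1 : ℕ) : ℤ) = (X1 - (par i).a - ((X2 - (par i).b) / n) * (par i).z) % n ∧
      ((q.2 : ℕ) : ℤ) = (X2 - (par i).b) % n) ∧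
    (((q'.1 : ℕ) : ℤ) = (X1 - (par i').a - ((X2 - (par i').b) / n) * (par i').z) % n ∧
      ((q'.2 : ℕ) : ℤ) = (X2 - (par i').b) % n) := by
  have hn : 0 < n := Nat.pos_of_ne_zero (NeZero.ne n)
  have hn' : (0:ℤ) < n := by exact_mod_cast hn
  have key : ∀ X1 X2 : ℤ, (0 ≤ X1 ∧ X1 < n) → (0 ≤ X2 ∧ X2 < n) →
      ¬ ((X1 - (par i).a - ((X2 - (par i).b) / n) * (par i).z) % n =
        (X1 - (par i').a - ((X2 - (par i').b) / n) * (par i').z) % n ∧
        (X2 - (par i).b) % n = (X2 - (par i').b) % n) → ∃ X1 X2 : ℤ, (0 ≤ X1 ∧ X1 < n) ∧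
    (0 ≤ X2 ∧ X2 < n) ∧ ∃ q q' : Fin n × Fin n, q ≠ q' ∧
    (((q.1 : ℕ) : ℤ) = (X1 - (par i).a - ((X2 - (par i).b) / n) * (par i).z) % n ∧
      ((q.2 : ℕ) : ℤ) = (X2 - (par i).b) % n) ∧
    (((q'.1 : ℕ) : ℤ) = (X1 - (par i').a - ((X2 - (par i').b) / n) * (par i').z) % n ∧
      ((q'.2 : ℕ) : ℤ) = (X2 - (par i').b) % n) := by
    intro X1 X2 h1 h2 hne
    refine ⟨X1, X2, h1, h2,
      (toF n ((X1 - (par i).a - ((X2 - (par i).b) / n) * (par i).z) % n),
        toF n ((X2 - (par i).b) % n)),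
      (toF n ((X1 - (par i').a - ((X2 - (par i').b) / n) * (par i').z) % n),
        toF n ((X2 - (par i').b) % n)), ?_, ⟨?_, ?_⟩, ⟨?_, ?_⟩⟩
    · intro he
      apply hne
      have e1 := congrArg (fun w : Fin n × Fin n => ((w.1 : ℕ) : ℤ)) he
      have e2 := congrArg (fun w : Fin n × Fin n => ((w.2 : ℕ) : ℤ)) he
      simp only at e1 e2
      rw [toF_val (Int.emod_nonneg _ hn'.ne') (Int.emod_lt_of_pos _ hn'),
        toF_val (Int.emod_nonneg _ hn'.ne') (Int.emod_lt_of_pos _ hn')] at e1 e2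
      exact ⟨e1, e2⟩
    all_goals exact toF_val (Int.emod_nonneg _ hn'.ne') (Int.emod_lt_of_pos _ hn')
  obtain ⟨a, b, z⟩ := i
  obtain ⟨a', b', z'⟩ := i'
  have ha := a.2
  have ha' := a'.2
  have hb := b.2
  have hb' := b'.2
  have hz := z.2
  have hz' := z'.2
  simp only [par] at key ⊢
  by_cases hbb : b = b'
  · subst hbb
    by_cases haa : a = a'
    · subst haa
      have hzz : z ≠ z' := by
        rintro rfl
        exact h rfl
      refine key 0 0 ⟨le_rfl, hn'⟩ ⟨le_rfl, hn'⟩ ?_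
      rintro ⟨e, -⟩
      have hd : (0 - (((b : ℕ) : ℤ) + 1)) / (n:ℤ) = -1 :=
        (dm (r := n - (((b : ℕ) : ℤ) + 1)) hn' (by omega) (by omega) (by ring)).1
      rw [hd] at e
      have := emod_inj e (by rw [abs_lt]; omega)
      apply hzz
      apply Fin.ext
      omega
    · refine key 0 (n-1) ⟨le_rfl, hn'⟩ ⟨by omega, by omega⟩ ?_
      rintro ⟨e, -⟩
      have hd : ((n:ℤ) - 1 - (((b : ℕ) : ℤ) + 1)) / (n:ℤ) = 0 :=
        Int.ediv_eq_zero_of_lt (by omega) (by omega)
      rw [hd] at e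
      have := emod_inj e (by rw [abs_lt]; omega)
      apply haa
      apply Fin.ext
      omega
  · refine key 0 0 ⟨le_rfl, hn'⟩ ⟨le_rfl, hn'⟩ ?_
    rintro ⟨-, e⟩
    have := emod_inj e (by rw [abs_lt]; omega)
    apply hbb
    apply Fin.ext
    omega

open Classical in
/-- all tiles of one lattice -/
noncomputable def AA (t n : ℕ) [NeZero t] [NeZero n] (P : Par) : Finset (Finset (Fin 3 → ℤ)) :=
  Finset.univ.image (SS t n P)

omit [NeZero t] [NeZero n] in
theorem card_Col : Fintype.card (Col t n) = 3^(n*n*t) := by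
  simp [Col, pow_mul]

theorem card_AA (h3 : n = 3 * t) (P : Par) : (AA t n P).card = 3^(n*n*t) := by
  classical
  unfold AA
  rw [Finset.card_image_of_injective _ (SS_inj h3), Finset.card_univ, card_Col]

open Classical in
theorem card_inter (h3 : n = 3 * t) (i j : Ix n) (hij : i ≠ j) :
    (AA t n (par i) ∩ AA t n (par j)).card ≤ (8 * 3^(n*n) / 9)^t := by
  obtain ⟨X1, X2, hX1, hX2, q, q', hqq, hq, hq'⟩ := distinct i j hij
  obtain ⟨G, hGdef⟩ : ∃ G : Finset (Fin n × Fin n → Fin 3),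
      G = Finset.univ.filter fun g : Fin n × Fin n → Fin 3 => ¬ (g q = 1 ∧ g q' = 0) := ⟨_, rfl⟩
  have hG : G.card ≤ 8 * 3^(n*n) / 9 := by
    rw [Nat.le_div_iff_mul_le (by norm_num)]
    have h1 := goodCard q q' hqq
    have h2 : Fintype.card (Fin n × Fin n) = n * n := by simp
    rw [h2] at h1
    rw [hGdef]
    convert h1
  have hsub : AA t n (par i) ∩ AA t n (par j) ⊆
      (Fintype.piFinset fun _ : Fin t => G).image (SS t n (par i)) := by
    intro S hS
    obtain ⟨h1, h2⟩ := Finset.mem_inter.1 hS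
    obtain ⟨c, -, rfl⟩ := Finset.mem_image.1 h1
    obtain ⟨c', -, hc'⟩ := Finset.mem_image.1 h2
    refine Finset.mem_image.2 ⟨c, ?_, rfl⟩
    rw [Fintype.mem_piFinset]
    intro k
    rw [hGdef, Finset.mem_filter]
    exact ⟨Finset.mem_univ _,
      constraint h3 hc'.symm k X1 X2 hX1.1 hX1.2 hX2.1 hX2.2 q q' hq hq'⟩
  have s1 := Finset.card_le_card hsub
  have s2 := Finset.card_image_le (s := Fintype.piFinset fun _ : Fin t => G)
    (f := SS t n (par i))
  have s3 : (Fintype.piFinset fun _ : Fin t => G).card = G.card^t := by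
    rw [Fintype.card_piFinset_const]
  rw [s3] at s2
  exact (s1.trans s2).trans (Nat.pow_le_pow_left hG t)

theorem AA_sub (h3 : n = 3 * t) (P : Par) (S : Finset (Fin 3 → ℤ)) (hS : S ∈ AA t n P) :
    S ∈ (box n 3).powerset ∧ Tiles S := by
  classical
  obtain ⟨c, -, rfl⟩ := Finset.mem_image.1 hS
  rw [Finset.mem_powerset]
  exact ⟨Finset.filter_subset _ _, tiles h3 c⟩

/-- The counting bound. -/
theorem lower (h3 : n = 3 * t) :
    (n * ((n-1) * n)) * 3^(n*n*t) ≤
      numTiles n 3 + (n * ((n-1) * n))^2 * (8 * 3^(n*n) / 9)^t := by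
  classical
  have hb := bonf (fun i : Ix n => AA t n (par i)) (3^(n*n*t)) ((8 * 3^(n*n) / 9)^t) Finset.univ
    (fun i _ => (card_AA h3 (par i)).ge) (fun i _ j _ hij => by
      have := card_inter h3 i j hij
      convert this)
  have hsub : (Finset.univ.biUnion fun i : Ix n => AA t n (par i)).card ≤ numTiles n 3 := by
    unfold numTiles
    apply Finset.card_le_card
    intro S hS
    obtain ⟨i, -, hi⟩ := Finset.mem_biUnion.1 hS
    rw [Finset.mem_filter]
    exact AA_sub h3 _ S hi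
  have hIx : (Finset.univ : Finset (Ix n)).card = n * ((n-1) * n) := by
    rw [Finset.card_univ, Fintype.card_prod, Fintype.card_prod, Fintype.card_fin, Fintype.card_fin]
  rw [hIx] at hb
  exact hb.trans (Nat.add_le_add_right hsub _)

end Pool.Agent.X286.Ti
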