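import Mathlib

namespace Pool.Agent.X286.Ti

/-- `[n]^d`, as a set of integer points. -/
noncomputable def box (n d : ℕ) : Finset (Fin d → ℤ) := Fintype.piFinset fun _ => Finset.Icc 1 (n:ℤ)

/-- `S` tiles `ℤ^d` by translations. -/
def Tiles {d : ℕ} (S : Finset (Fin d → ℤ)) : Prop :=
  ∃ T : Set (Fin d → ℤ), ∀ x : Fin d → ℤ,
    ∃! p : (Fin d → ℤ) × (Fin d → ℤ), p.1 ∈ S ∧ p.2 ∈ T ∧ p.1 + p.2 = x

open Classical in
/-- The number of subsets of `[n]^d` that tile `ℤ^d` by translations. -/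
noncomputable def numTiles (n d : ℕ) : ℕ := ((box n d).powerset.filter Tiles).card

theorem dm {a b q r : ℤ} (h : 0 < b) (h0 : 0 ≤ r) (h1 : r < b) (e : a = b * q + r) :
    a / b = q ∧ a % b = r :=
  (Int.ediv_emod_unique h).2 ⟨by rw [e]; ring, h0, h1⟩

def toF (m : ℕ) [NeZero m] (i : ℤ) : Fin m := Fin.ofNat m i.toNat

theorem toF_val {m : ℕ} [NeZero m] {i : ℤ} (h0 : 0 ≤ i) (h1 : i < m) :
    ((toF m i : Fin m) : ℤ) = i := by
  unfold toF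
  have : i.toNat < m := by omega
  simp only [Fin.ofNat, Nat.mod_eq_of_lt this]
  omega

theorem toF_coe {m : ℕ} [NeZero m] (i : Fin m) : toF m ((i : ℕ) : ℤ) = i := by
  apply Fin.ext
  simp [toF, Fin.ofNat, Nat.mod_eq_of_lt i.2]

structure Par where
  a : ℤ
  b : ℤ
  z : ℤ

variable (t n : ℕ) (P : Par)

def jj (x : Fin 3 → ℤ) : ℤ := (x 0 - 1) / t
def r0 (x : Fin 3 → ℤ) : ℤ := (x 0 - 1) % t
def kk (x : Fin 3 → ℤ) : ℤ := (x 2 - 1 - jj t x * P.b) / n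
def r2 (x : Fin 3 → ℤ) : ℤ := (x 2 - 1 - jj t x * P.b) % n
def ll (x : Fin 3 → ℤ) : ℤ := (x 1 - 1 - jj t x * P.a - kk t n P x * P.z) / n
def r1 (x : Fin 3 → ℤ) : ℤ := (x 1 - 1 - jj t x * P.a - kk t n P x * P.z) % n

/-- the lattice -/
def Lam : Set (Fin 3 → ℤ) := {v | ∃ k0 k1 k2 : ℤ, v 0 = k0 * t ∧
  v 1 = k0 * P.a + k1 * n + k2 * P.z ∧ v 2 = k0 * P.b + k2 * n}

section
variable {t n P}
variable (ht : 0 < t) (hn : 0 < n)
include ht hn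

theorem spec (x : Fin 3 → ℤ) :
    (x 0 - 1 = t * jj t x + r0 t x ∧ 0 ≤ r0 t x ∧ r0 t x < t) ∧
    (x 2 - 1 - jj t x * P.b = n * kk t n P x + r2 t n P x ∧ 0 ≤ r2 t n P x ∧ r2 t n P x < n) ∧
    (x 1 - 1 - jj t x * P.a - kk t n P x * P.z = n * ll t n P x + r1 t n P x ∧
      0 ≤ r1 t n P x ∧ r1 t n P x < n) := by
  have ht' : (0:ℤ) < t := by exact_mod_cast ht
  have hn' : (0:ℤ) < n := by exact_mod_cast hn
  refine ⟨⟨?_, Int.emod_nonneg _ ht'.ne', Int.emod_lt_of_pos _ ht'⟩,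
    ⟨?_, Int.emod_nonneg _ hn'.ne', Int.emod_lt_of_pos _ hn'⟩,
    ⟨?_, Int.emod_nonneg _ hn'.ne', Int.emod_lt_of_pos _ hn'⟩⟩
  · exact (Int.mul_ediv_add_emod _ _).symm
  · exact (Int.mul_ediv_add_emod _ _).symm
  · exact (Int.mul_ediv_add_emod _ _).symm

theorem rep_of_mem {x y : Fin 3 → ℤ} (h : x - y ∈ Lam t n P) :
    r0 t x = r0 t y ∧ r1 t n P x = r1 t n P y ∧ r2 t n P x = r2 t n P y := by
  have ht' : (0:ℤ) < t := by exact_mod_cast ht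
  have hn' : (0:ℤ) < n := by exact_mod_cast hn
  obtain ⟨k0, k1, k2, h0, h1, h2⟩ := h
  simp only [Pi.sub_apply] at h0 h1 h2
  obtain ⟨⟨a1, a2, a3⟩, ⟨b1, b2, b3⟩, ⟨c1, c2, c3⟩⟩ := spec (P := P) ht hn y
  have e0 : jj t x = jj t y + k0 ∧ r0 t x = r0 t y :=
    dm ht' a2 a3 (by linear_combination h0 + a1)
  have e2 : kk t n P x = kk t n P y + k2 ∧ r2 t n P x = r2 t n P y := by
    refine dm hn' b2 b3 ?_
    rw [e0.1]
    linear_combination h2 + b1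
  have e1 : ll t n P x = ll t n P y + k1 ∧ r1 t n P x = r1 t n P y := by
    refine dm hn' c2 c3 ?_
    rw [e0.1, e2.1]
    linear_combination h1 + c1
  exact ⟨e0.2, e1.2, e2.2⟩

theorem mem_of_rep {x y : Fin 3 → ℤ} (h0 : r0 t x = r0 t y) (h1 : r1 t n P x = r1 t n P y)
    (h2 : r2 t n P x = r2 t n P y) : x - y ∈ Lam t n P := by
  obtain ⟨⟨a1, -, -⟩, ⟨b1, -, -⟩, ⟨c1, -, -⟩⟩ := spec (P := P) ht hn x
  obtain ⟨⟨a1', -, -⟩, ⟨b1', -, -⟩, ⟨c1', -, -⟩⟩ := spec (P := P) ht hn y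
  refine ⟨jj t x - jj t y, ll t n P x - ll t n P y, kk t n P x - kk t n P y, ?_, ?_, ?_⟩
  · simp only [Pi.sub_apply]
    linear_combination a1 - a1' + h0
  · simp only [Pi.sub_apply]
    linear_combination c1 - c1' + h1
  · simp only [Pi.sub_apply]
    linear_combination b1 - b1' + h2

theorem eq_of_rep {x y : Fin 3 → ℤ} (hx : x ∈ box n 3) (hy : y ∈ box n 3)
    (hj : jj t x = jj t y) (h0 : r0 t x = r0 t y) (h1 : r1 t n P x = r1 t n P y)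
    (h2 : r2 t n P x = r2 t n P y) : x = y := by
  have hn' : (0:ℤ) < n := by exact_mod_cast hn
  simp only [box, Fintype.mem_piFinset, Finset.mem_Icc] at hx hy
  obtain ⟨⟨a1, -, -⟩, ⟨b1, -, -⟩, ⟨c1, -, -⟩⟩ := spec (P := P) ht hn x
  obtain ⟨⟨a1', -, -⟩, ⟨b1', -, -⟩, ⟨c1', -, -⟩⟩ := spec (P := P) ht hn y
  have small : ∀ u v m : ℤ, 1 ≤ u → u ≤ n → 1 ≤ v → v ≤ n → u - v = n * m → m = 0 := by
    intro u v m u1 u2 v1 v2 e
    by_contra hm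
    rcases lt_or_gt_of_ne hm with h | h
    · nlinarith
    · nlinarith
  have e0 : x 0 = y 0 := by
    rw [hj] at a1
    linarith
  have k2 : kk t n P x - kk t n P y = 0 := by
    refine small (x 2) (y 2) _ (hx 2).1 (hx 2).2 (hy 2).1 (hy 2).2 ?_
    rw [hj] at b1
    linear_combination b1 - b1' + h2
  have k1 : ll t n P x - ll t n P y = 0 := by
    refine small (x 1) (y 1) _ (hx 1).1 (hx 1).2 (hy 1).1 (hy 1).2 ?_
    rw [hj, sub_eq_zero.1 k2] at c1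
    linear_combination c1 - c1' + h1
  have e2 : x 2 = y 2 := by
    rw [hj] at b1
    linear_combination b1 - b1' + h2 + n * k2
  have e1 : x 1 = y 1 := by
    rw [hj, sub_eq_zero.1 k2] at c1
    linear_combination c1 - c1' + h1 + n * k1
  funext i
  fin_cases i
  · exact e0
  · exact e1
  · exact e2

variable (t n P) in
/-- the point with given representative and slab -/
def pt (j s0 s1 s2 : ℤ) : Fin 3 → ℤ :=
  ![j * t + s0 + 1, (s1 + j * P.a - ((s2 + j * P.b) / n) * P.z) % n + 1,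
    (s2 + j * P.b) % n + 1]

theorem pt_spec {j s0 s1 s2 : ℤ} (h0 : 0 ≤ s0) (h0' : s0 < t) (h1 : 0 ≤ s1) (h1' : s1 < n)
    (h2 : 0 ≤ s2) (h2' : s2 < n) :
    jj t (pt t n P j s0 s1 s2) = j ∧ r0 t (pt t n P j s0 s1 s2) = s0 ∧
      r1 t n P (pt t n P j s0 s1 s2) = s1 ∧ r2 t n P (pt t n P j s0 s1 s2) = s2 := by
  have ht' : (0:ℤ) < t := by exact_mod_cast ht
  have hn' : (0:ℤ) < n := by exact_mod_cast hn
  have e0 : jj t (pt t n P j s0 s1 s2) = j ∧ r0 t (pt t n P j s0 s1 s2) = s0 := by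
    refine dm ht' h0 h0' ?_
    simp only [pt, Matrix.cons_val_zero]
    ring
  have m1 := Int.mul_ediv_add_emod (s2 + j * P.b) n
  have e2 : kk t n P (pt t n P j s0 s1 s2) = -((s2 + j * P.b) / n) ∧
      r2 t n P (pt t n P j s0 s1 s2) = s2 := by
    refine dm hn' h2 h2' ?_
    rw [e0.1]
    simp only [pt, Matrix.cons_val]
    linear_combination m1
  have m2 := Int.mul_ediv_add_emod (s1 + j * P.a - ((s2 + j * P.b) / n) * P.z) n
  have e1 : ll t n P (pt t n P j s0 s1 s2) =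
      -((s1 + j * P.a - ((s2 + j * P.b) / n) * P.z) / n) ∧
      r1 t n P (pt t n P j s0 s1 s2) = s1 := by
    refine dm hn' h1 h1' ?_
    rw [e0.1, e2.1]
    simp only [pt, Matrix.cons_val]
    linear_combination m2
  exact ⟨e0.1, e0.2, e1.2, e2.2⟩

theorem pt_box (h3 : n = 3 * t) {j s0 s1 s2 : ℤ} (hj : 0 ≤ j) (hj' : j ≤ 2) (h0 : 0 ≤ s0)
    (h0' : s0 < t) : pt t n P j s0 s1 s2 ∈ box n 3 := by
  have ht' : (0:ℤ) < t := by exact_mod_cast ht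
  have hn' : (0:ℤ) < n := by exact_mod_cast hn
  have h3' : (n:ℤ) = 3 * t := by exact_mod_cast h3
  simp only [box, Fintype.mem_piFinset, Finset.mem_Icc]
  intro i
  fin_cases i
  · simp only [pt]
    show 1 ≤ j * t + s0 + 1 ∧ j * t + s0 + 1 ≤ (n:ℤ)
    constructor
    · nlinarith
    · nlinarith
  · have := Int.emod_nonneg (s1 + j * P.a - ((s2 + j * P.b) / n) * P.z) hn'.ne'
    have := Int.emod_lt_of_pos (s1 + j * P.a - ((s2 + j * P.b) / n) * P.z) hn'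
    show 1 ≤ (s1 + j * P.a - ((s2 + j * P.b) / n) * P.z) % n + 1 ∧
      (s1 + j * P.a - ((s2 + j * P.b) / n) * P.z) % n + 1 ≤ (n:ℤ)
    omega
  · have := Int.emod_nonneg (s2 + j * P.b) hn'.ne'
    have := Int.emod_lt_of_pos (s2 + j * P.b) hn'
    show 1 ≤ (s2 + j * P.b) % n + 1 ∧ (s2 + j * P.b) % n + 1 ≤ (n:ℤ)
    omega

end

/-- colourings -/
abbrev Col := Fin t → (Fin n × Fin n → Fin 3)

variable [NeZero t] [NeZero n]

def ev (c : Col t n) (x : Fin 3 → ℤ) : ℤ :=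
  ((c (toF t (r0 t x)) (toF n (r1 t n P x), toF n (r2 t n P x)) : ℕ) : ℤ)

/-- the tile of a colouring -/
noncomputable def SS (c : Col t n) : Finset (Fin 3 → ℤ) := (box n 3).filter fun x => ev t n P c x = jj t x

variable {t n P}

theorem ev_nonneg (c : Col t n) (x : Fin 3 → ℤ) : 0 ≤ ev t n P c x := Int.natCast_nonneg _

theorem ev_le (c : Col t n) (x : Fin 3 → ℤ) : ev t n P c x ≤ 2 := by
  have := (c (toF t (r0 t x)) (toF n (r1 t n P x), toF n (r2 t n P x))).2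
  unfold ev
  omega

theorem tiles (h3 : n = 3 * t) (c : Col t n) : Tiles (SS t n P c) := by
  have ht : 0 < t := Nat.pos_of_ne_zero (NeZero.ne t)
  have hn : 0 < n := Nat.pos_of_ne_zero (NeZero.ne n)
  refine ⟨Lam t n P, fun x => ?_⟩
  obtain ⟨⟨-, a2, a3⟩, ⟨-, b2, b3⟩, ⟨-, c2, c3⟩⟩ := spec (P := P) ht hn x
  set s := pt t n P (ev t n P c x) (r0 t x) (r1 t n P x) (r2 t n P x) with hs
  obtain ⟨q1, q2, q3, q4⟩ := pt_spec (P := P) ht hn (j := ev t n P c x) a2 a3 c2 c3 b2 b3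
  rw [← hs] at q1 q2 q3 q4
  have hsS : s ∈ SS t n P c := by
    unfold SS
    rw [Finset.mem_filter]
    refine ⟨pt_box ht hn h3 (ev_nonneg c x) (ev_le c x) a2 a3, ?_⟩
    rw [q1]
    unfold ev
    rw [q2, q3, q4]
  refine ⟨(s, x - s), ⟨hsS, mem_of_rep ht hn q2.symm q3.symm q4.symm, by simp⟩, ?_⟩
  rintro ⟨s', v⟩ ⟨g1, g2, g3⟩
  simp only at g1 g2 g3
  have g4 : x - s' ∈ Lam t n P := by
    rw [← g3]
    simpa using g2
  obtain ⟨w0, w1, w2⟩ := rep_of_mem ht hn g4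
  have g1' := (Finset.mem_filter.1 g1)
  have : s' = s := by
    refine eq_of_rep (P := P) ht hn g1'.1 (Finset.mem_filter.1 hsS).1 ?_ ?_ ?_ ?_
    · rw [← g1'.2, q1]
      unfold ev
      rw [w0, w1, w2]
    · rw [q2, w0]
    · rw [q3, w1]
    · rw [q4, w2]
  subst this
  rw [← g3]
  simp

theorem SS_inj (h3 : n = 3 * t) : Function.Injective (SS t n P) := by
  have ht : 0 < t := Nat.pos_of_ne_zero (NeZero.ne t)
  have hn : 0 < n := Nat.pos_of_ne_zero (NeZero.ne n)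
  intro c c' h
  funext i y
  obtain ⟨y1, y2⟩ := y
  have hi : ((i : ℕ) : ℤ) < t := by exact_mod_cast i.2
  have h1 : ((y1 : ℕ) : ℤ) < n := by exact_mod_cast y1.2
  have h2 : ((y2 : ℕ) : ℤ) < n := by exact_mod_cast y2.2
  set s := pt t n P ((c i (y1, y2) : ℕ) : ℤ) ((i : ℕ) : ℤ) ((y1 : ℕ) : ℤ) ((y2 : ℕ) : ℤ) with hs
  obtain ⟨q1, q2, q3, q4⟩ := pt_spec (P := P) ht hn (j := ((c i (y1, y2) : ℕ) : ℤ))
    (Int.natCast_nonneg _) hi (Int.natCast_nonneg _) h1 (Int.natCast_nonneg _) h2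
  rw [← hs] at q1 q2 q3 q4
  have hbox : s ∈ box n 3 := pt_box ht hn h3 (Int.natCast_nonneg _) (by
    have := (c i (y1, y2)).2
    omega) (Int.natCast_nonneg _) hi
  have hsS : s ∈ SS t n P c := by
    unfold SS
    rw [Finset.mem_filter]
    refine ⟨hbox, ?_⟩
    rw [q1]
    unfold ev
    rw [q2, q3, q4, toF_coe, toF_coe, toF_coe]
  rw [h] at hsS
  have := (Finset.mem_filter.1 hsS).2
  rw [q1] at this
  unfold ev at this
  rw [q2, q3, q4, toF_coe, toF_coe, toF_coe] at this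
  apply Fin.ext
  exact_mod_cast this.symm

/-- a common tile of two lattices gives constraints on the colouring -/
theorem constraint {P' : Par} (h3 : n = 3 * t) {c c' : Col t n}
    (h : SS t n P c = SS t n P' c') (i : Fin t) (X1 X2 : ℤ) (hX1 : 0 ≤ X1) (hX1' : X1 < n)
    (hX2 : 0 ≤ X2) (hX2' : X2 < n) (q q' : Fin n × Fin n)
    (hq : ((q.1 : ℕ) : ℤ) = (X1 - P.a - ((X2 - P.b) / n) * P.z) % n ∧
      ((q.2 : ℕ) : ℤ) = (X2 - P.b) % n)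
    (hq' : ((q'.1 : ℕ) : ℤ) = (X1 - P'.a - ((X2 - P'.b) / n) * P'.z) % n ∧
      ((q'.2 : ℕ) : ℤ) = (X2 - P'.b) % n) :
    ¬ (c i q = 1 ∧ c i q' = 0) := by
  have ht : 0 < t := Nat.pos_of_ne_zero (NeZero.ne t)
  have hn : 0 < n := Nat.pos_of_ne_zero (NeZero.ne n)
  have ht' : (0:ℤ) < t := by exact_mod_cast ht
  have h3' : (n:ℤ) = 3 * t := by exact_mod_cast h3
  have hi : ((i : ℕ) : ℤ) < t := by exact_mod_cast i.2
  rintro ⟨hc1, hc0⟩
  let s : Fin 3 → ℤ := ![1 * t + ((i : ℕ) : ℤ) + 1, X1 + 1, X2 + 1]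
  have hsb : s ∈ box n 3 := by
    simp only [box, Fintype.mem_piFinset, Finset.mem_Icc]
    intro j
    fin_cases j
    · show 1 ≤ 1 * (t:ℤ) + ((i : ℕ) : ℤ) + 1 ∧ 1 * (t:ℤ) + ((i : ℕ) : ℤ) + 1 ≤ n
      omega
    · show 1 ≤ X1 + 1 ∧ X1 + 1 ≤ (n:ℤ)
      omega
    · show 1 ≤ X2 + 1 ∧ X2 + 1 ≤ (n:ℤ)
      omega
  have js : jj t s = 1 ∧ r0 t s = ((i : ℕ) : ℤ) := by
    refine dm ht' (Int.natCast_nonneg _) hi ?_
    show 1 * (t:ℤ) + ((i : ℕ) : ℤ) + 1 - 1 = t * 1 + ((i : ℕ) : ℤ)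
    ring
  have rs : ∀ P : Par, r2 t n P s = (X2 - P.b) % n ∧
      r1 t n P s = (X1 - P.a - ((X2 - P.b) / n) * P.z) % n := by
    intro P
    unfold r1 r2 kk
    rw [js.1]
    have e2 : s 2 = X2 + 1 := rfl
    have e1 : s 1 = X1 + 1 := rfl
    rw [e2, e1]
    have f2 : X2 + 1 - 1 - 1 * P.b = X2 - P.b := by ring
    rw [f2]
    have f1 : X1 + 1 - 1 - 1 * P.a - (X2 - P.b) / n * P.z =
      X1 - P.a - (X2 - P.b) / n * P.z := by ring
    rw [f1]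
    exact ⟨rfl, rfl⟩
  have hs1 : s ∈ SS t n P c := by
    unfold SS
    rw [Finset.mem_filter]
    refine ⟨hsb, ?_⟩
    unfold ev
    rw [js.1, js.2, (rs P).1, (rs P).2, ← hq.1, ← hq.2, toF_coe, toF_coe, toF_coe]
    show ((c i q : ℕ) : ℤ) = 1
    rw [hc1]
    rfl
  rw [h] at hs1
  have hs2 := (Finset.mem_filter.1 hs1).2
  unfold ev at hs2
  rw [js.1, js.2, (rs P').1, (rs P').2, ← hq'.1, ← hq'.2, toF_coe, toF_coe, toF_coe] at hs2
  -- the point in slab `0`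
  let p : Fin 3 → ℤ := ![0 * t + ((i : ℕ) : ℤ) + 1, ((q'.1 : ℕ) : ℤ) + 1, ((q'.2 : ℕ) : ℤ) + 1]
  have g1 : ((q'.1 : ℕ) : ℤ) < n := by exact_mod_cast q'.1.2
  have g2 : ((q'.2 : ℕ) : ℤ) < n := by exact_mod_cast q'.2.2
  have hpb : p ∈ box n 3 := by
    simp only [box, Fintype.mem_piFinset, Finset.mem_Icc]
    intro j
    fin_cases j
    · show 1 ≤ 0 * (t:ℤ) + ((i : ℕ) : ℤ) + 1 ∧ 0 * (t:ℤ) + ((i : ℕ) : ℤ) + 1 ≤ n
      omega
    · show 1 ≤ ((q'.1 : ℕ) : ℤ) + 1 ∧ ((q'.1 : ℕ) : ℤ) + 1 ≤ (n:ℤ)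
      omega
    · show 1 ≤ ((q'.2 : ℕ) : ℤ) + 1 ∧ ((q'.2 : ℕ) : ℤ) + 1 ≤ (n:ℤ)
      omega
  have jp : jj t p = 0 ∧ r0 t p = ((i : ℕ) : ℤ) := by
    refine dm ht' (Int.natCast_nonneg _) hi ?_
    show 0 * (t:ℤ) + ((i : ℕ) : ℤ) + 1 - 1 = t * 0 + ((i : ℕ) : ℤ)
    ring
  have rp : ∀ P : Par, r2 t n P p = ((q'.2 : ℕ) : ℤ) ∧ r1 t n P p = ((q'.1 : ℕ) : ℤ) := by
    intro P
    unfold r1 r2 kk
    rw [jp.1]
    have e2 : p 2 = ((q'.2 : ℕ) : ℤ) + 1 := rfl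
    have e1 : p 1 = ((q'.1 : ℕ) : ℤ) + 1 := rfl
    rw [e2, e1]
    have f2 : ((q'.2 : ℕ) : ℤ) + 1 - 1 - 0 * P.b = ((q'.2 : ℕ) : ℤ) := by ring
    rw [f2, Int.ediv_eq_zero_of_lt (Int.natCast_nonneg _) g2]
    have f1 : ((q'.1 : ℕ) : ℤ) + 1 - 1 - 0 * P.a - 0 * P.z = ((q'.1 : ℕ) : ℤ) := by ring
    rw [f1]
    exact ⟨Int.emod_eq_of_lt (Int.natCast_nonneg _) g2,
      Int.emod_eq_of_lt (Int.natCast_nonneg _) g1⟩
  have hp1 : p ∈ SS t n P c := by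
    unfold SS
    rw [Finset.mem_filter]
    refine ⟨hpb, ?_⟩
    unfold ev
    rw [jp.1, jp.2, (rp P).1, (rp P).2, toF_coe, toF_coe, toF_coe]
    show ((c i q' : ℕ) : ℤ) = 0
    rw [hc0]
    rfl
  rw [h] at hp1
  have hp2 := (Finset.mem_filter.1 hp1).2
  unfold ev at hp2
  rw [jp.1, jp.2, (rp P').1, (rp P').2, toF_coe, toF_coe, toF_coe] at hp2
  rw [hp2] at hs2
  exact absurd hs2 (by norm_num)

end Pool.Agent.X286.Ti
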